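import Pool.Agent.Work.MP_a1177b_an.Core
import Pool.Agent.Work.MP_a1177b_an.Degenerate

/-!
Negative answer to Q1 (complete Pick pairs with a normalized diagonal first kernel).

* Part 1 (quantitative form): if `(k, l, Ω)` is a complete Pick pair of holomorphic kernels with
  `k` normalized diagonal and `l` not identically zero, then every open polydisc about `0` that is
  contained in `Ω` is contained in `Ω¹_ϑ`.
* Part 2: consequently `Ω` does not contain the closure of `Ω¹_ϑ`.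
* Part 3: the only exception is the degenerate kernel `l = 0`, which (read literally) does give
  complete Pick pairs with `closure Ω¹_ϑ ⊆ Ω`; the hypothesis `l ≠ 0` is therefore needed.
-/

namespace Pool.Agent.Results.MP_a1177b_an.CompletePickDomains

open MPa1177b

theorem result :
    (∀ (g : ℕ), 0 < g → ∀ Ω : Set (Fin g → ℂ), IsOpen Ω → IsConnected Ω → 0 ∈ Ω →
      ∀ (k l : (Fin g → ℂ) → (Fin g → ℂ) → ℂ) (c : (Fin g → ℕ) → ℝ),
        IsHolKernel Ω k → IsNormDiag k c → IsHolKernel Ω l →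
        (∃ x ∈ Ω, ∃ y ∈ Ω, l x y ≠ 0) → IsCPPair k l Ω →
          (∀ R : Fin g → ℝ, (∀ j, 0 < R j) → {z : Fin g → ℂ | ∀ j, ‖z j‖ < R j} ⊆ Ω →
            {z : Fin g → ℂ | ∀ j, ‖z j‖ < R j} ⊆ OmegaThetaOne (theta c)) ∧
          ¬ closure (OmegaThetaOne (theta c)) ⊆ Ω) ∧
    (∃ (k : (Fin 1 → ℂ) → (Fin 1 → ℂ) → ℂ) (c : (Fin 1 → ℕ) → ℝ),
      IsHolKernel Set.univ k ∧ IsNormDiag k c ∧
        IsHolKernel (Set.univ : Set (Fin 1 → ℂ)) (fun _ _ => 0) ∧
        IsCPPair k (fun _ _ => 0) Set.univ ∧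
        closure (OmegaThetaOne (theta c)) ⊆ Set.univ) := by
  refine ⟨?_, ?_⟩
  · intro g hg Ω hΩ hconn h0 k l c hk hc hl hl0 hCP
    have hcore := core hg hΩ hconn.isPreconnected h0 hk hl hc hl0 hCP
    exact ⟨fun R hR hRΩ => polydisc_subset_of_core hc.1
      (fun R hR hRΩ A => hcore R hR hRΩ A) R hR (fun z hz => hRΩ hz),
      not_closure_subset_of_core hg hΩ h0 hc.1 (fun R hR hRΩ A => hcore R hR hRΩ A)⟩
  · obtain ⟨k, c, h1, h2, h3, h4⟩ := degenerate_example
    exact ⟨k, c, h1, h2, h3, h4, Set.subset_univ _⟩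

end Pool.Agent.Results.MP_a1177b_an.CompletePickDomains
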